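import Pool.Agent.H797Z.SemiDefs
import Pool.Agent.H797Z.DynMain

set_option autoImplicit false

namespace Pool.Agent.Results.MP_7ad892_an.ApproxLocalDerivation

open Pool.Agent.H797Z.Semi
open scoped ZeroAtInfty

/-- Every bounded approximately local derivation of the semicrossed product of a locally compact
Hausdorff space by a continuous proper map is a derivation. -/
theorem result {Ω : Type} [TopologicalSpace Ω] [LocallyCompactSpace Ω] [T2Space Ω]
    (σ : CocompactMap Ω Ω) {B : Type} [NonUnitalCStarAlgebra B]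
    (π : C₀(Ω, ℂ) →⋆ₙₐ[ℂ] B) (t : C₀(Ω, ℂ) →ₗ[ℂ] B) (hU : IsUniversalRep σ π t)
    (δ : semicrossed π t →L[ℂ] semicrossed π t) (hδ : IsApproxLocalDerivation δ) :
    IsDerivation δ :=
  Pool.Agent.H797Z.approx_local_derivation σ π t hU δ hδ

end Pool.Agent.Results.MP_7ad892_an.ApproxLocalDerivation
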